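import Pool.Agent.Run7.h16.MA.Gen
import Pool.Agent.Run7.h479.SO.More

/-!
# Galois invariant classes at the generic point of varieties dominated by varieties generated by
abelian varieties over finite fields with CM fields abelian over the rational numbers

Over an algebraic closure of the field with `p` elements each abelian variety is isogenous to the
reduction of an abelian variety of CM type (Honda, Tate). So an abelian variety over the field with
`p ^ a` elements is modelled by `RedAV`: a finite product of CM types `(E i, Φ i)` with Weil numbers
`π i ∈ E i` that satisfy the formula of Shimura and Taniyama; its cohomology of degree `n`, with
coefficients in an algebraically closed field `Ω`, consists of the alternating `n`-forms on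
`Ω ⊗ H_1`, on which the Frobenius endomorphism acts by `π`.

Let `Z` be such an abelian variety, the product of simple factors `A i` of dimension `g i`, whose CM
fields `E i` are abelian over `ℚ`, such that (`HasAbelianFields`):

* if `g i ≥ 4` and `i' ≠ i`, the fields `E i` and `E i'` have only totally real common subfields (there
  is no condition on two factors of dimension at most three);
* if `g i ≥ 6`, the powers of `π i` generate `E i`, and no positive power of the norm of `π i` to a
  subfield `T` of `E i`, cyclic over `ℚ` and not totally real, is a product of elements of proper
  subfields of `T`; if `g i = 6` one exception `T` is allowed, an imaginary quadratic field in which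
  `p` splits (there is no condition on the norms of `π i` if `g i ≤ 5`).

We consider (`IsAbelianFieldAV`) the abelian varieties `Y` that are, over an algebraic closure,
isogenous to a product of a supersingular abelian variety of any dimension and of powers of the
factors of such a `Z`; the cohomology of `Y` may contain many exotic Tate classes.

`Homology Ω V` are data of motivic homology `M X i j = H_i^M(X, ℚ(j)) = CH_j(X, i - 2 j) ⊗ ℚ` and of
`ℓ`-adic homology `E X i j = H_i(X, ℚ_ℓ(j))` (coefficients extended to `Ω`) of schemes `X` of finite
type over a finite field (the elements of `V`), with the Frobenius and the regulator. Let `𝒢` be the
smallest class (`Generated`) of such schemes that contains those with the homology groups of abelian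
varieties `Y` as above (`IsOfAbelianField`), that is closed under direct summands of finite sums of
twists of motives, and that contains all of a closed subscheme `Z` of `X`, `X` and `X ∖ Z` if it
contains two of them. It contains for instance all products of curves with Jacobians that are
isogenous to products of powers of the factors of one `Z` and of open subsets of such curves,
symmetric powers of them, and the singular and the open varieties with a stratification by such
varieties.

Let `𝒮` (`Spread`) be the smallest class of schemes that contains `𝒢`, all open subschemes (with an
arbitrary complement) and all images under proper morphisms of its members, the schemes that are the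
union of a closed and an open member, and the schemes whose motives are direct summands of sums of
twists of motives of members. For example it contains all varieties dominated by varieties in `𝒢`.

Let `X` be a geometrically integral variety of dimension `d` in `𝒮` and `G` the system of its
(smooth, non-empty) open subschemes (`IsOpens`), so that the group `H^i(F_0 X, ℚ_ℓ(j))` is the direct
limit of the groups `E (U a) (2 d - i) (d - j)`. **Then for `i < j` and for `i ≥ 2 j`, `i > 0`, each
invariant class in `H^i(F_0 X, ℚ_ℓ(j))` is zero** (`FunctionFieldTate`). In particular it is in the
image of `CH^j(Spec F(X), 2 j - i)`, which is zero in the second case, and Q1 is true for `X` and these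
`i` and `j`. The main case is `i = 2 j`, where Q1 says that the restrictions of the Tate classes of
codimension `j > 0` of open subschemes of `X` to the generic point are zero.

The passage from the Tate conjecture for `Y` to the class `Generated` is due to Soulé, Geisser, Kahn
and Jannsen (formalized in the starting files and by helper117), the system of the open subschemes
and the deduction of `FunctionFieldTate` from the surjectivity of the cycle maps are those of
helper479 (`MP_677d84_ag` VanishingSums), who treats CM fields of arbitrary degree with a set of
embeddings, one of each pair of complex conjugates, that is an orbit of a commutative group, and
slopes whose sum over this orbit is not a sum of prime divisors of the dimension; there the Tate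
classes of the abelian varieties are generated by divisors. Here the fields are abelian over `ℚ`, the
condition on `π i` is that of the norms (necessary and sufficient for the generation by divisors, see
`MP_021685_ag` AbelianFields), there is no condition for factors of dimension at most five, and the
cohomology of `Y` may contain exotic Tate classes. The new part of the proof is the theorem
`elementary_of_abelian`: the relations between the Frobenius eigenvalues of `Y` are generated by
elementary ones, that come from pairs of complex conjugates, from abelian surfaces and threefolds and
from imaginary quadratic fields (Weil classes, algebraic by the theorem of Markman).
-/

set_option autoImplicit false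

namespace Pool.Agent.Results.MP_677d84_ag.AbelianFields

open Pool.Agent.W495.TA Pool.Agent.W495.FM Run7.h16.MA Pool.Agent.Run7.h479.SO

/-- For `i < j` and for `i ≥ 2 j`, `i > 0`, the elements of the direct limit of the groups
`H^i(U a, ℚ_ℓ(j)) = E (U a) (2 d - i) (d - j)` which are invariant under the Frobenius are zero. -/
def FunctionFieldTate {Ω V : Type} [Field Ω] {T : Homology Ω V} (d : ℤ) (G : Opens T) : Prop :=
  ∀ i j : ℤ, (i < j ∨ (2 * j ≤ i ∧ 0 < i)) → ∀ (a : G.I) (e : T.E (G.U a) (2 * d - i) (d - j)),
    G.IsInvariant e → G.IsZero e

/-- **Invariant classes at the generic point of varieties dominated by varieties generated by
abelian varieties over finite fields with CM fields abelian over `ℚ`.** -/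
theorem result (p : ℕ) [Fact p.Prime] (ν : PadicAlgCl p ≃+* ℂ) (Ω : Type) [Field Ω]
    [IsAlgClosed Ω] [CharZero Ω] (V : Type) (T : Homology Ω V) (hT : IsHomology T)
    (hW : HasWeights T) (X : V) (hX : Spread T (Generated T (IsOfAbelianField p ν T)) X)
    (d : ℤ) (G : Opens T) (hG : IsOpens X d G) : FunctionFieldTate d G :=
  fun _ _ h _ _ he =>
    generic_zero hT hW hX (fun _ h1 i => onto_spread_field hT hW h1 i) hG h he

end Pool.Agent.Results.MP_677d84_ag.AbelianFields
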