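import Pool.Agent.Run7.h886.PL.Fin

/-!
# The Tate conjecture for the function fields of the twists `D(t) y ^ 2 = f(x, t)` of a surface

Let `k` be a finite field of odd characteristic with `q` elements, `g ≥ 1`, and let
`f = x ^ (2 g + 1) + f_{2 g - 1} x ^ (2 g - 1) + ... + f_0` be a polynomial over `k[t]` with
`deg f_j ≤ 2 N (2 g + 1 - j)`, `N ≥ 1`, such that the discriminant of `f` (with respect to `x`) is a squarefree
polynomial in `t` and the polynomial over `k` formed by the coefficients of `t ^ (2 N (2 g + 1 - j))` in the `f_j` is
irreducible. If the characteristic is larger than `2 g + 1`, these `f` are a positive proportion of all the `f` with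
`deg f_j ≤ 2 N (2 g + 1 - j)`. For a squarefree `D` in `k[t]` let `Y_D` be a smooth projective model over `k` of the
surface `D(t) y ^ 2 = f(x, t)`, fibred over the line in curves of genus `g`, and let `J_D` be the Jacobian of its
generic fibre over `K = k(t)`. The surfaces `Y_D` are all the quadratic twists of `Y_1`, their geometric genus
tends to infinity with the degree of `D`.

**Theorem for one surface.** For every `D` prime to the discriminant of `f` the group `J(K)`, `J = J_D`, has no
point of order two, and

`#(J(K) / 2 J(K)) * #Sha(J/K)[2] = 2 ^ d`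

for some `d = d(D)`. For `D` random among the squarefree polynomials of degree `m` with any given leading
coefficient, prime to the discriminant (these are a positive proportion of all the `q ^ m` polynomials),
`m → ∞`, over the fixed finite field `k`:

* `d` has the law of Poonen and Rains, `P(d) = (∏_{i ≤ d} 2 / (2 ^ i - 1)) / ∏_{j ≥ 0} (1 + 2 ^ (-j))`;
* all the moments converge: the average of `2 ^ d` tends to `3`, the average of its `j`-th power tends to
  `(1 + 2) (1 + 4) ... (1 + 2 ^ j)`, the average of `d` tends to `1.2645`, and so on;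
* for at least `20.97` percent of all these `D` the group `J(K)` is uniquely divisible by two and `Sha(J/K)` has no
  2-primary part, so the Tate conjecture holds for the divisors on `Y_D` and every prime `ℓ` (Artin and Tate, Milne,
  Kato and Trihan; as all the other consequences below this is not formalised).

**Theorem for several surfaces.** The theorem below is about `n` polynomials `f_1, ..., f_n` as above, of any
degrees `2 g_i + 1`, with pairwise coprime discriminants: the numbers `d_1(D), ..., d_n(D)` are independent for a
random `D`, with convergence of all the joint moments, and for at least `(0.2097) ^ n` of all `D` all the `n`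
surfaces `Y_{i, D}` given by `D(t) y ^ 2 = f_i(x, t)` have this property.

**Consequences for the question** (not formalised). Let `X` be any variety birational to `Y = Y_D`, so that the
cohomology of the generic point `H^i(F_0 X, ℚ_ℓ(j))` is that of `Y_D`.

* Q1 for `(i, j) = (2, 1)` says that `H^2(F_0 X, ℚ_ℓ(1))` has no invariants, because `CH^1(Spec k'(X), 0) = 0`, `k'` the
  algebraic closure of `k`. The part of weight zero of this group is the quotient of `H^2(Y, ℚ_ℓ(1))` by the
  classes of all divisors, and the other weights are positive. So Q1 for `(2, 1)` holds if the Tate conjecture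
  holds for the divisors on `Y` (then the eigenvalue one is semisimple): for at least `20.97` percent of ALL twists,
  in the natural ordering by the degree, over a fixed finite field, for any genus of the fibres and all `ℓ`, and for
  all the function fields of the `n` surfaces at once for `(0.2097) ^ n` of all `D`.
* For these `D` Q1 holds for all `(i, j)` except `(2, 2)`: for `i ≥ 3` the group is zero (an open affine surface has
  cohomological dimension two), for `i = 0, 1` and for `(2, j)`, `j` different from `1` and `2`, the invariants are known by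
  the weights, by the Tate conjecture for curves and by the finiteness of the Picard variety over `k`.
* For all `D`: the dimension of the invariants in `H^2(F_0 X, ℚ_2(1))`, the failure of Q1 for `(2, 1)`, is the defect of
  the Tate conjecture for the divisors on `Y_D` (by the Hodge index theorem), so at most `d(D)`. Its average over ALL
  `D` is at most `1.2645`, all its exponential moments are bounded, and the law of `d` bounds the proportion of the
  `D` with a larger space of invariants.

The other results on this page are about varieties whose cohomology is generated by abelian varieties. The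
surfaces `Y_D` with `g ≥ 2` are of general type for large degrees of `D`, with geometric genus tending to infinity.

`J(F)` is the Picard group of the affine coordinate ring `F[x, y] / (y ^ 2 - F(x))`, because the only point at
infinity of the curve is rational, and the Tate-Shafarevich group is given by continuous cocycles of the absolute
Galois group of `K` with values in `J(K^sep)` (`Pool/Agent/N874/Jac/Def.lean`). The curve `D y ^ 2 = f(x)` has the
equation `y ^ 2 = F(x)` with `F = D ^ (2 g + 1) f(x / D) = f.scaleRoots D`.

This is the theorem of the projects PRL (helper286, with helpers 160, 209, 212, 215, 216, 270, 303, 382, 416, 502,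
547, 704, 711, 760, 803, 824, 847, 908, 957) and JPL (helper784, with helpers 56, 303, 382, 518, 803, 908, 957) on
top of project TG (helper784, with helpers 68, 81, 286, 382, 646, 688, 711, 760, 779, 781, 811, 886, 908, 973, and the
libraries TS (helper875), PJ and JB (helper352) and PP (helper874)), together with the equality
`#Sel(J, 2) = #(J(K) / 2 J(K)) * #Sha(J/K)[2]` (`Pool/Agent/Run7/h886/PL/Seq.lean`, helper886). Proof: one more prime
`Q` in `D` changes the 2-Selmer group by a reciprocity law, the class of `Q` moves the dimension as in a Markov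
chain whose stationary law is the limit law, the error terms are character sums over the curves whose points
are the factorisations of `f` at `t`.
-/

set_option autoImplicit false
set_option linter.all false

open Polynomial Filter IsDedekindDomain
open scoped Classical Topology

namespace Pool.Agent.Results.MP_677d84_ag.FunctionFieldsOfTwists

open Pool.Agent.N874.Jac (J mapJ Cochain Cocycle Coboundary power TrivialAtPrimes TrivialOver)
open Pool.Agent.TH115.GD (CompInf)

section groups

variable (k : Type) [Field k] {K : Type} [Field K] [Algebra k[X] K] [IsFractionRing k[X] K] (F : K[X])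

/-- The continuous cocycles of the absolute Galois group of `K = k(t)` with values in `J(K^sep)`, `J` the Jacobian
of `y ^ 2 = F(x)`, whose class in `H ^ 1 (K, J)` is zero over the completions of `K` at all the places (the maximal
ideals of `k[t]` and infinity) and is killed by two. -/
structure ShaTwoCocycle (c : Cochain F) : Prop where
  cocycle : Cocycle c
  two : Coboundary (power c 2)
  finite : TrivialAtPrimes k[X] c
  infinite : TrivialOver (CompInf k K) c

/-- The set `Sha(J/K)[2]` of the elements of `Sha(J/K)` killed by two: the classes of these cocycles. -/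
def ShaTwo : Type :=
  Quot fun c c' : {c : Cochain F // ShaTwoCocycle k F c} =>
    ∃ P : J F (SeparableClosure K), ∀ σ, c.1 σ = c'.1 σ * (mapJ F σ.toAlgHom P / P)

/-- The product of the orders of `J(K) / 2 J(K)` and of `Sha(J/K)[2]`. -/
noncomputable def order : ℕ :=
  (powMonoidHom 2 : J F K →* J F K).range.index * Nat.card (ShaTwo k F)

/-- Its binary logarithm. -/
noncomputable def dim : ℕ := Nat.log 2 (order k F)

/-- Multiplication by two is bijective on `J(K)`, `J` the Jacobian of `y ^ 2 = F(x)` (written
multiplicatively), and every element of 2-power order of `H ^ 1 (K, J)` which is zero over the completions of `K` at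
all maximal ideals of `k[t]` is zero: every continuous cocycle `c` of the absolute Galois group of `K` with values
in `J(K^sep)` whose class is zero over these completions and whose power `c ^ (2 ^ n)` is a coboundary is a
coboundary. -/
def NoTwoPart : Prop :=
  (Function.Bijective fun P : J F K => P ^ 2) ∧
    ∀ (c : Cochain F) (n : ℕ), Cocycle c → TrivialAtPrimes k[X] c → Coboundary (power c (2 ^ n)) →
      Coboundary c

end groups

/-- The weights `∏_{i ≤ d} 2 / (2 ^ i - 1)` of the law of Poonen and Rains. -/
noncomputable def weight (d : ℕ) : ℝ := ∏ i ∈ Finset.range d, (2 : ℝ) / (2 ^ (i + 1) - 1)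

/-- The law of Poonen and Rains. -/
noncomputable def prob (d : ℕ) : ℝ := weight d / ∑' j, weight j

/-- The expectation of `φ` for this law. -/
noncomputable def mean (φ : ℕ → ℝ) : ℝ := (∑' d, weight d * φ d) / ∑' d, weight d

section defs

variable {k : Type} [Field k]

/-- The discriminant of the monic polynomial `f` of degree `2 g + 1` in `x` over `k[t]`, up to the sign: the
resultant of `f` and its derivative. -/
noncomputable def discriminant (g : ℕ) (f : k[X][X]) : k[X] :=
  f.resultant (derivative f) (2 * g + 1) (2 * g)

/-- `f = x ^ (2 g + 1) + f_{2 g - 1} x ^ (2 g - 1) + ... + f_0` with `deg f_j ≤ M (2 g + 1 - j)`. -/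
structure HasHeight (g M : ℕ) (f : k[X][X]) : Prop where
  monic : f.Monic
  degree : f.natDegree = 2 * g + 1
  trace : f.coeff (2 * g) = 0
  height : ∀ j ≤ 2 * g, (f.coeff j).natDegree ≤ M * (2 * g + 1 - j)

/-- The reduction of `f` at infinity, the polynomial `x ^ (2 g + 1) + ∑ r_j x ^ j` over `k` where `r_j` is the
coefficient of `t ^ (M (2 g + 1 - j))` in `f_j`. -/
noncomputable def atInfinity (g M : ℕ) (f : k[X][X]) : k[X] :=
  X ^ (2 * g + 1) + ∑ j ∈ Finset.range (2 * g + 1), C ((f.coeff j).coeff (M * (2 * g + 1 - j))) * X ^ j

/-- The family: squarefree discriminant, irreducible reduction at infinity. -/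
structure InFamily (g N : ℕ) (f : k[X][X]) : Prop extends HasHeight g (2 * N) f where
  inert : Irreducible (atInfinity g (2 * N) f)
  squarefree : Squarefree (discriminant g f)

variable (K : Type) [Field K] [Algebra k[X] K] [IsFractionRing k[X] K]

/-- The monic equation `y ^ 2 = D ^ (2 g + 1) f(x / D)` of the quadratic twist `D y ^ 2 = f(x)` over
`K = k(t)`. -/
noncomputable def twist (f : k[X][X]) (D : k[X]) : K[X] := (f.scaleRoots D).map (algebraMap k[X] K)

variable {n : ℕ}

/-- The squarefree polynomials of degree `m` with leading coefficient `u` which are prime to all the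
discriminants. -/
def Twists (g : Fin n → ℕ) (f : Fin n → k[X][X]) (u : k) (m : ℕ) : Set k[X] :=
  {D | D.leadingCoeff = u ∧ D.natDegree = m ∧ Squarefree D ∧
    ∀ i, IsCoprime D (discriminant (g i) (f i))}

/-- The numbers `d_i(D)`. -/
noncomputable def dims (f : Fin n → k[X][X]) (D : k[X]) (i : Fin n) : ℕ := dim k (twist K (f i) D)

end defs

/-- **Theorem.** Let `k` be a finite field of odd characteristic with `q` elements, `K = k(t)`.
(1) Let `n ≥ 1` and let `f_1, ..., f_n` be polynomials of the families (`f_i` monic of degree `2 g_i + 1` over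
`k[t]`, with trace zero, `deg f_{i, j} ≤ 2 N_i (2 g_i + 1 - j)`, `N_i ≥ 1`, with squarefree discriminant and
irreducible reduction at infinity) with pairwise coprime discriminants, and `u ≠ 0` in `k`. For a squarefree `D` of
degree `m` with leading coefficient `u`, prime to the discriminants (at least `c q ^ m` polynomials, `c > 0`,
for all large `m`) let `J_i` be the Jacobian of the generic fibre over `K` of the surface `D(t) y ^ 2 = f_i(x, t)`. Then `J_i(K)` has no points of order two,
`#(J_i(K) / 2 J_i(K)) * #Sha(J_i/K)[2] = 2 ^ d_i`. For every function `φ` of at most exponential growth the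
average of `φ(d_1, ..., d_n)` over these `D` tends, for `m → ∞`, to the expectation of `φ` for the product of `n`
copies of the law of Poonen and Rains. For all large `m` the groups `J_i(K)` are uniquely divisible by two and the
2-primary parts of the groups `Sha(J_i/K)` are zero, for all `i`, for at least `(0.2097) ^ n` of these `D`.
(2) The sum of the weights of the law is `4.76846...`, the expectation of `2 ^ (j d)` is
`(1 + 2) (1 + 4) ... (1 + 2 ^ j)`, the expectation of `(-1) ^ d` is zero and the expectation of `d` is `1.2645...`.
(3) If the characteristic is larger than `2 g + 1`, a positive proportion of all `f` with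
`deg f_j ≤ 2 N (2 g + 1 - j)` belongs to the family. -/
theorem result (k : Type) [Field k] [Finite k] (h2 : (2 : k) ≠ 0)
    (K : Type) [Field K] [Algebra k[X] K] [IsFractionRing k[X] K] :
    (∀ (n : ℕ) (g N : Fin n → ℕ) (f : Fin n → k[X][X]) (u : k), 1 ≤ n → (∀ i, 1 ≤ g i) →
      (∀ i, 1 ≤ N i) → (∀ i, InFamily (g i) (N i) (f i)) →
      (∀ i j, i ≠ j → IsCoprime (discriminant (g i) (f i)) (discriminant (g j) (f j))) → u ≠ 0 →
      (∃ c : ℝ, 0 < c ∧ ∀ᶠ m : ℕ in atTop,
        c * (Nat.card k : ℝ) ^ m ≤ ((Twists g f u m).ncard : ℝ)) ∧
      (∀ m, ∀ D ∈ Twists g f u m, ∀ i,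
        (∀ P : J (twist K (f i) D) K, P ^ 2 = 1 → P = 1) ∧
        (powMonoidHom 2 : J (twist K (f i) D) K →* J (twist K (f i) D) K).range.index *
          Nat.card (ShaTwo k (twist K (f i) D)) = 2 ^ dims K f D i) ∧
      (∀ φ : (Fin n → ℕ) → ℝ, (∃ C y : ℝ, ∀ d, |φ d| ≤ C * y ^ (∑ i, d i)) →
        Tendsto (fun m => (∑ᶠ D ∈ Twists g f u m, φ (dims K f D)) / ((Twists g f u m).ncard : ℝ))
          atTop (𝓝 (∑' d : Fin n → ℕ, φ d * ∏ i, prob (d i)))) ∧
      ∀ᶠ m : ℕ in atTop, (0.2097 : ℝ) ^ n * ((Twists g f u m).ncard : ℝ) ≤
        (({D ∈ Twists g f u m | ∀ i, NoTwoPart k (twist K (f i) D)} : Set k[X]).ncard : ℝ)) ∧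
    (|∑' d, weight d - 4.76846| < 0.00001 ∧
      (∀ j : ℕ, mean (fun d => ((2 : ℝ) ^ j) ^ d) = ∏ i ∈ Finset.Icc 1 j, (1 + (2 : ℝ) ^ i)) ∧
      mean (fun d => (-1 : ℝ) ^ d) = 0 ∧ |mean (fun d => (d : ℝ)) - 1.2645| < 0.0001) ∧
    ∀ g : ℕ, 1 ≤ g → ((2 * g + 1).factorial : k) ≠ 0 → ∃ c : ℝ, 0 < c ∧ ∀ᶠ N : ℕ in atTop,
      0 < {f : k[X][X] | HasHeight g (2 * N) f}.ncard ∧
      c * ({f : k[X][X] | HasHeight g (2 * N) f}.ncard : ℝ) ≤
        ({f : k[X][X] | InFamily g N f}.ncard : ℝ) := by
  have hh : ∀ (g M : ℕ) (f : k[X][X]), HasHeight g M f ↔ Pool.Agent.N352.PJ.Ht g M f :=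
    fun g M f => ⟨fun h => ⟨h.monic, h.degree, h.trace, h.height⟩,
      fun h => ⟨h.mon, h.deg, h.tr, h.ht⟩⟩
  have hI : ∀ (g N : ℕ) (f : k[X][X]), InFamily g N f ↔ Run7.h886.TG.InFam g N f := fun g N f =>
    ⟨fun h => ⟨(hh _ _ _).1 h.toHasHeight, h.inert, h.squarefree⟩,
      fun h => ⟨(hh _ _ _).2 h.ht, h.inert, h.sq⟩⟩
  refine ⟨fun n g N f u hn hg hN hf hc hu => ?_, Run7.h886.PL.numbers, fun g hg hp => ?_⟩
  · haveI : Nonempty (Fin n) := ⟨⟨0, hn⟩⟩
    have hF := Run7.h886.PL.jf_of h2 hg hN (fun i => (hI _ _ _).1 (hf i)) hc
    have hTw : ∀ m, Twists g f u m = Run7.h784.JP.TwJ g f u m := fun m => rfl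
    have hsha : ∀ F : K[X], Nat.card (ShaTwo k F) =
        Nat.card (Run7.h886.PL.ShaH F (Run7.h286.PLC.AllPl k K)) := fun F =>
      Run7.h886.PL.card_shaH (fun c => ⟨fun h => ⟨h.cocycle, h.two, h.finite, h.infinite⟩,
        fun h => ⟨h.1, h.2.1, h.2.2.1, h.2.2.2⟩⟩) fun c c' => Iff.rfl
    have hone : ∀ (m : ℕ), ∀ D ∈ Twists g f u m, ∀ i,
        (∀ P : J (twist K (f i) D) K, P ^ 2 = 1 → P = 1) ∧
        (powMonoidHom 2 : J (twist K (f i) D) K →* J (twist K (f i) D) K).range.index *
          Nat.card (ShaTwo k (twist K (f i) D)) = 2 ^ Run7.h286.PL.rkJ K ((f i).scaleRoots D) ∧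
        (Run7.h286.PL.rkJ K ((f i).scaleRoots D) = 0 → NoTwoPart k (twist K (f i) D)) := by
      intro m D hD i
      obtain ⟨t1, t2, t3, t4⟩ := Run7.h886.PL.one K hF hu hD i
      refine ⟨t2, ?_, fun h0 => ⟨(t4 h0).1, (t4 h0).2.1⟩⟩
      rw [hsha]
      exact t3
    have hdim : ∀ (m : ℕ), ∀ D ∈ Twists g f u m, ∀ i,
        dims K f D i = Run7.h286.PL.rkJ K ((f i).scaleRoots D) := by
      intro m D hD i
      unfold dims dim order
      rw [(hone m D hD i).2.1, Nat.log_pow (by norm_num)]
    obtain ⟨c, hc0, hc1⟩ := Run7.h886.PL.size_one hF hu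
    refine ⟨⟨c, hc0, hc1⟩, fun m D hD i => ?_, fun φ hφ =>
      Run7.h886.PL.mean_of K hF hu (dims K f) hdim φ hφ, ?_⟩
    · rw [hdim m D hD i]
      exact ⟨(hone m D hD i).1, (hone m D hD i).2.1⟩
    · filter_upwards [Run7.h886.PL.zero_prop K Run7.h886.PL.jfinm hF hu] with m hm
      rw [Fintype.card_fin] at hm
      refine hm.trans ?_
      have hfin : (Twists g f u m).Finite := Run7.h784.JP.twJ_fin hF hu m
      have hsub : ({D ∈ Run7.h784.JP.TwJ g f u m |
          ∀ i, Run7.h286.PL.rkJ K ((f i).scaleRoots D) = 0} : Set k[X]) ⊆
          {D ∈ Twists g f u m | ∀ i, NoTwoPart k (twist K (f i) D)} := fun D hD =>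
        ⟨hD.1, fun i => (hone m D hD.1 i).2.2 (hD.2 i)⟩
      exact_mod_cast Set.ncard_le_ncard hsub (hfin.subset fun D hD => hD.1)
  · obtain ⟨c, hc, h⟩ := Run7.h886.TG.fam_pos (k := k) g hg hp
    refine ⟨c, hc, ?_⟩
    filter_upwards [h] with N hN
    have e1 : {f : k[X][X] | HasHeight g (2 * N) f} =
        {f : k[X][X] | Pool.Agent.N352.PJ.Ht g (2 * N) f} := Set.ext fun f => hh _ _ _
    have e2 : {f : k[X][X] | InFamily g N f} = {f : k[X][X] | Run7.h886.TG.InFam g N f} :=
      Set.ext fun f => hI _ _ _
    rw [e1, e2]
    exact hN

end Pool.Agent.Results.MP_677d84_ag.FunctionFieldsOfTwists
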